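import Mathlib
import Pool.Agent.H113R3.DH.Final

set_option autoImplicit false

open Polynomial Filter Topology MeasureTheory

namespace Pool.Agent.Results.MP_28f8a1_an.CoarseDensityCompositions

/-- The polynomial as a self-map of the plane. -/
def map (T : ℂ[X]) : ℂ → ℂ := fun w : ℂ => T.eval w

/-- The orbit of `z` escapes to infinity. -/
def Escapes (T : ℂ[X]) (z : ℂ) : Prop :=
  Tendsto (fun k : ℕ => ‖(map T)^[k] z‖) atTop atTop

/-- The orbit of `z` is attracted by a sink (attracting periodic point) of `T`. -/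
def Attracted (T : ℂ[X]) (z : ℂ) : Prop :=
  ∃ n : ℕ, 0 < n ∧ ∃ x : ℂ, (map T)^[n] x = x ∧ ‖deriv ((map T)^[n]) x‖ < 1 ∧
    Tendsto (fun k : ℕ => (map T)^[n * k] z) atTop (𝓝 x)

/-- `T` is hyperbolic: every critical point escapes or is attracted by a sink. -/
def Hyperbolic (T : ℂ[X]) : Prop :=
  ∀ c : ℂ, (derivative T).eval c = 0 → Escapes T c ∨ Attracted T c

/-- `A` has degree `k`, coefficients of modulus at most `M` and a leading coefficient of modulus at
least `1 / M`. These sets exhaust the polynomials of degree `k` as `M` grows. -/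
def Bounded (k : ℕ) (M : ℝ) (A : ℂ[X]) : Prop :=
  A.natDegree = k ∧ (∀ i, ‖A.coeff i‖ ≤ M) ∧ 1 / M ≤ ‖A.leadingCoeff‖

/-- Hyperbolicity in the families `P (z ^ n * A z) + t`, uniformly in `P` and `A`. For all degrees
`k` and `m ≥ 1`, all bounds `M` and all large `n`: if `A` has degree `k` and `P` has degree `m`, both
bounded by `M`, then

(1) the area of the set of the `t` in the disc of radius `M` for which `P (z ^ n * A z) + t` is not
hyperbolic is at most `640 (k + m) (k + 2) log n / n`;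

(2) the polynomial `P (z ^ n * A z)` becomes hyperbolic after a change of its constant coefficient
by at most `640 (k + m) (k + 2) log n / n`. -/
theorem result (k m : ℕ) (hm : 1 ≤ m) (M : ℝ) (hM : 1 ≤ M) : ∃ n₀ : ℕ, ∀ n : ℕ, n₀ ≤ n →
    ∀ A P : ℂ[X], Bounded k M A → Bounded m M P →
      volume {t : ℂ | ‖t‖ ≤ M ∧ ¬ Hyperbolic (P.comp (X ^ n * A) + C t)} ≤
        ENNReal.ofReal (640 * (k + m) * (k + 2) * (Real.log n / n)) ∧
      ∃ t : ℂ, ‖t‖ ≤ 640 * (k + m) * (k + 2) * (Real.log n / n) ∧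
        Hyperbolic (P.comp (X ^ n * A) + C t) := by
  have key : ∀ T : ℂ[X], Pool.Agent.H113R3.DH.Hyp T → Hyperbolic T := by
    intro T hT c hc
    rcases hT c hc with h | ⟨x, h1, h2, h3⟩
    · exact Or.inl h
    · refine Or.inr ⟨1, one_pos, x, h1, ?_, ?_⟩
      · rw [Function.iterate_one]; exact h2
      · simp only [one_mul]; exact h3
  obtain ⟨n₀, h⟩ := Pool.Agent.H113R3.DH.main k m hm M hM
  refine ⟨n₀, fun n hn A P hA hP => ?_⟩
  obtain ⟨h1, t, h2, h3⟩ := h n hn A P ⟨hA.1, hA.2.1, hA.2.2⟩ ⟨hP.1, hP.2.1, hP.2.2⟩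
  refine ⟨(measure_mono ?_).trans h1, t, h2, key _ h3⟩
  rintro s ⟨hs, hs'⟩
  exact ⟨hs, fun h => hs' (key _ h)⟩

end Pool.Agent.Results.MP_28f8a1_an.CoarseDensityCompositions
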