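import Mathlib
import Pool.Agent.H400R3.HI.Open

/-! Hyperbolicity of the polynomials `f(g^n(z)) + s`, for `g` hyperbolic and `n` large. -/

set_option autoImplicit false

open Filter Topology Polynomial MeasureTheory

namespace Pool.Agent.Results.MP_28f8a1_an.HighIterates

/-- The polynomial as a self-map of the plane. -/
def map (T : ℂ[X]) : ℂ → ℂ := fun w : ℂ => T.eval w

/-- The orbit of `z` escapes to infinity. -/
def Escapes (T : ℂ[X]) (z : ℂ) : Prop :=
  Tendsto (fun k : ℕ => ‖(map T)^[k] z‖) atTop atTop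

/-- The orbit of `z` is attracted by a sink (attracting periodic point) of `T`. -/
def Attracted (T : ℂ[X]) (z : ℂ) : Prop :=
  ∃ n : ℕ, 0 < n ∧ ∃ x : ℂ, (map T)^[n] x = x ∧ ‖deriv ((map T)^[n]) x‖ < 1 ∧
    Tendsto (fun k : ℕ => (map T)^[n * k] z) atTop (𝓝 x)

/-- `T` is hyperbolic: every critical point escapes or is attracted by a sink. -/
def Hyperbolic (T : ℂ[X]) : Prop :=
  ∀ c : ℂ, (derivative T).eval c = 0 → Escapes T c ∨ Attracted T c

/-- The marked values of the pair `f, g`: the critical values of `f`, the values of `f` on the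
forward orbits of the critical points of `g`, and the values of `f` at the sinks of `g`. -/
def Marked (f g : ℂ[X]) : Set ℂ :=
  {m | (∃ y : ℂ, (derivative f).eval y = 0 ∧ m = f.eval y) ∨
    (∃ (c : ℂ) (k : ℕ), (derivative g).eval c = 0 ∧ 1 ≤ k ∧ m = f.eval ((map g)^[k] c)) ∨
    ∃ a : ℂ, (∃ p : ℕ, 0 < p ∧ (map g)^[p] a = a ∧ ‖deriv ((map g)^[p]) a‖ < 1) ∧ m = f.eval a}

/-- Let `g` be a hyperbolic polynomial of degree at least two and `f` a nonconstant polynomial.
(1) If all the (countably many) marked values of `f, g` escape or are attracted by sinks under `g`,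
then the polynomial `f(g^n(z))` is hyperbolic for all large `n`. (2) For all `s` outside a meagre
set, the polynomial `f(g^n(z)) + s` is hyperbolic for all large `n`. (3) For every `ε > 0`, for all
large `n` there is a hyperbolic polynomial of the same degree as `f(g^n(z))` whose coefficients
differ from those of `f(g^n(z))` by less than `ε`. (4) If the set of the points which neither
escape nor are attracted by a sink of `g` has zero area, then (2) holds for almost every `s`. -/
theorem result (g : ℂ[X]) (hg : 2 ≤ g.natDegree) (hyp : Hyperbolic g) (f : ℂ[X])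
    (hf : 1 ≤ f.natDegree) :
    ((∀ m ∈ Marked f g, Escapes g m ∨ Attracted g m) →
      ∀ᶠ n : ℕ in atTop, Hyperbolic (f.comp (g.comp^[n] X))) ∧
    (∀ᶠ s : ℂ in residual ℂ, ∀ᶠ n : ℕ in atTop, Hyperbolic (f.comp (g.comp^[n] X) + C s)) ∧
    (∀ ε : ℝ, 0 < ε → ∀ᶠ n : ℕ in atTop, ∃ S : ℂ[X],
      S.natDegree = (f.comp (g.comp^[n] X)).natDegree ∧
      (∀ i : ℕ, ‖S.coeff i - (f.comp (g.comp^[n] X)).coeff i‖ < ε) ∧ Hyperbolic S) ∧
    (volume {z : ℂ | ¬ (Escapes g z ∨ Attracted g z)} = 0 →
      ∀ᵐ s : ℂ, ∀ᶠ n : ℕ in atTop, Hyperbolic (f.comp (g.comp^[n] X) + C s)) := by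
  have h2 : ∀ᶠ s : ℂ in residual ℂ, ∀ᶠ n : ℕ in atTop,
      Hyperbolic (f.comp (g.comp^[n] X) + C s) := Pool.Agent.H400R3.HI.main_res hg hyp hf
  refine ⟨fun hM => Pool.Agent.H400R3.HI.main hg hyp hf hM, h2, ?_,
    fun hvol => Pool.Agent.H400R3.HI.main_ae hg hyp hvol hf⟩
  intro ε hε
  have hdense := dense_of_mem_residual h2
  rw [Metric.dense_iff] at hdense
  obtain ⟨s, hs, hn⟩ := hdense 0 ε hε
  have hs' : ‖s‖ < ε := by simpa using hs
  have hn' : ∀ᶠ n : ℕ in atTop, Hyperbolic (f.comp (g.comp^[n] X) + C s) := hn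
  filter_upwards [hn'] with n hn
  refine ⟨_, natDegree_add_C, fun i => ?_, hn⟩
  rw [coeff_add, add_sub_cancel_left, coeff_C]
  split_ifs
  · exact hs'
  · simpa using hε

end Pool.Agent.Results.MP_28f8a1_an.HighIterates
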