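import Pool.Agent.H597R3.SymE

set_option autoImplicit false

open Filter Topology Polynomial

namespace Pool.Agent.Results.MP_28f8a1_an.RotationalSymmetry

/-- `S` is hyperbolic: every critical point escapes or is attracted by a periodic sink (the
condition of `S04139`, word for word). -/
def Hyperbolic (S : ℂ[X]) : Prop :=
  ∀ c : ℂ, S.derivative.eval c = 0 →
    (Tendsto (fun k : ℕ => ‖(fun w : ℂ => S.eval w)^[k] c‖) atTop atTop ∨
      ∃ n : ℕ, 0 < n ∧ ∃ z : ℂ,
        (fun w : ℂ => S.eval w)^[n] z = z ∧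
        ‖deriv ((fun w : ℂ => S.eval w)^[n]) z‖ < 1 ∧
        Tendsto (fun k : ℕ => (fun w : ℂ => S.eval w)^[n * k] c) atTop (𝓝 z))

theorem hyperbolic_of {S : ℂ[X]}
    (h : ∀ c : ℂ, S.derivative.eval c = 0 → Pool.Agent.H597R3.Sym.OK S c) : Hyperbolic S := by
  intro c hc
  rcases h c hc with h1 | ⟨x, h1, h2, h3⟩
  · exact Or.inl h1
  · refine Or.inr ⟨1, one_pos, x, ?_, ?_, ?_⟩
    · rw [Function.iterate_one]; exact h1
    · rw [Function.iterate_one]; exact h2
    · simp only [one_mul]; exact h3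

/-- (1) Let `K`, `M` and `ε > 0` be given. For all sufficiently large `n`, every polynomial `T` of
degree `d`, `2 ≤ d < K * n`, with all coefficients of modulus at most `M`, whose coefficients at the
exponents not congruent to `d` modulo `n` have modulus less than `ε` (for instance every `T` with
`T (ω z) = ω ^ d * T z` for a primitive `n`-th root of unity `ω`), is within `ε` of a hyperbolic
polynomial of the same degree.
(2) For every nonconstant `P` and every `m`, for all real `t` outside a countable set the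
polynomial `z ^ m * (P (z ^ n) + t)` itself is hyperbolic for all sufficiently large `n`. -/
theorem result :
    (∀ (K : ℕ) (M ε : ℝ), 0 < ε → ∃ n₀ : ℕ, ∀ n : ℕ, n₀ ≤ n → ∀ T : ℂ[X], 2 ≤ T.natDegree →
      T.natDegree < K * n → (∀ i : ℕ, ‖T.coeff i‖ ≤ M) →
      (∀ i : ℕ, i % n ≠ T.natDegree % n → ‖T.coeff i‖ < ε) →
      ∃ S : ℂ[X], S.natDegree = T.natDegree ∧ (∀ i : ℕ, ‖S.coeff i - T.coeff i‖ < ε) ∧
        Hyperbolic S) ∧
    (∀ (P : ℂ[X]) (m : ℕ), 1 ≤ P.natDegree →
      {t : ℝ | ¬ ∃ n₀ : ℕ, ∀ n : ℕ, n₀ ≤ n →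
        Hyperbolic (X ^ m * (expand ℂ n P + C (t : ℂ)))}.Countable) := by
  constructor
  · intro K M ε hε
    obtain ⟨n₀, hn₀⟩ := eventually_atTop.1 (Pool.Agent.H597R3.Sym.symmetric K M hε)
    refine ⟨n₀, fun n hn T h1 h2 h3 h4 => ?_⟩
    obtain ⟨S, hS1, hS2, hS3⟩ := hn₀ n hn T h1 h2 h3 h4
    exact ⟨S, hS1, hS2, hyperbolic_of hS3⟩
  · intro P m hP
    refine (Pool.Agent.H597R3.Sym.exc_countable hP m).mono ?_
    intro t ht hcon
    apply ht
    obtain ⟨n₀, hn₀⟩ := eventually_atTop.1 hcon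
    refine ⟨n₀, fun n hn => hyperbolic_of ?_⟩
    have h := hn₀ n hn
    unfold Pool.Agent.H597R3.Sym.HypT at h
    rw [Pool.Agent.H597R3.Sym.Tn, map_add, expand_C] at h
    exact h

end Pool.Agent.Results.MP_28f8a1_an.RotationalSymmetry
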