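import Mathlib
import Pool.Agent.H307R3.ZO.Dens

/-!
Hyperbolicity of the polynomials `P(z ^ n)`: a zero-one law on residue classes of `n`, for every
nonconstant polynomial `P`.
-/

set_option autoImplicit false
open Filter Topology Polynomial

namespace Pool.Agent.Results.MP_28f8a1_an.ZeroOneLaw

/-- `S` is hyperbolic: every critical point escapes to infinity or is attracted by a sink. This is
the condition of the frozen statement `S04139`. -/
def Hyperbolic (S : ℂ[X]) : Prop :=
  ∀ c : ℂ, S.derivative.eval c = 0 →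
    (Filter.Tendsto (fun k : ℕ => ‖(fun w : ℂ => S.eval w)^[k] c‖) Filter.atTop Filter.atTop ∨
      ∃ n : ℕ, 0 < n ∧ ∃ z : ℂ, (fun w : ℂ => S.eval w)^[n] z = z ∧
        ‖deriv ((fun w : ℂ => S.eval w)^[n]) z‖ < 1 ∧
        Filter.Tendsto (fun k : ℕ => (fun w : ℂ => S.eval w)^[n * k] c) Filter.atTop (nhds z))

/-- the map `z ↦ P(z ^ n)` -/
def f (P : ℂ[X]) (n : ℕ) : ℂ → ℂ := fun z => P.eval (z ^ n)

/-- the critical values of `P(z ^ n)`, the same for all `n ≥ 2` -/
def CriticalValue (P : ℂ[X]) (v : ℂ) : Prop :=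
  v = P.eval 0 ∨ ∃ y : ℂ, P.derivative.eval y = 0 ∧ v = P.eval y

def RootOfUnity (u : ℂ) : Prop := ∃ k : ℕ, 0 < k ∧ u ^ k = 1

/-- all points of the orbit of `v` under `P(z ^ r)` are roots of unity, and from some time on their
powers with exponent `r` are not critical points of `P` -/
def Lands (P : ℂ[X]) (r : ℕ) (v : ℂ) : Prop :=
  (∀ i : ℕ, RootOfUnity ((f P r)^[i] v)) ∧
    ∃ I : ℕ, ∀ i, I ≤ i → P.derivative.eval (((f P r)^[i] v) ^ r) ≠ 0

/-- Let `P` be a nonconstant complex polynomial. There is `m ≥ 1` such that in every residue class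
`r` modulo `m` either (no critical value lands at `r`) `P(z ^ n)` is hyperbolic for all `n` of the
class outside a set of natural density zero, or (some critical value lands at `r`) `P(z ^ n)` is not
hyperbolic for all large `n` of the class. Consequently the set of the `n` for which `P(z ^ n)` is
hyperbolic has a natural density, namely the proportion of the classes modulo `m` at which no
critical value lands. -/
theorem result (P : ℂ[X]) (hP : 0 < P.natDegree) :
    ∃ m : ℕ, 0 < m ∧
      (∀ r : ℕ, (¬ ∃ v, CriticalValue P v ∧ Lands P r v) →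
        Tendsto (fun N : ℕ => ((({n : ℕ | 2 ≤ n ∧ n % m = r % m ∧
          ¬ Hyperbolic (expand ℂ n P)} ∩ Set.Iio N).ncard : ℕ) : ℝ) / N) atTop (𝓝 0)) ∧
      (∀ r : ℕ, (∃ v, CriticalValue P v ∧ Lands P r v) →
        ∃ n₀ : ℕ, ∀ n, n₀ ≤ n → n % m = r % m → ¬ Hyperbolic (expand ℂ n P)) ∧
      Tendsto (fun N : ℕ =>
        ((({n : ℕ | Hyperbolic (expand ℂ n P)} ∩ Set.Iio N).ncard : ℕ) : ℝ) / N) atTop
        (𝓝 ((({r : ℕ | r < m ∧ ¬ ∃ v, CriticalValue P v ∧ Lands P r v}.ncard : ℕ) : ℝ) / m)) :=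
  Pool.Agent.H307R3.ZO.final P hP

end Pool.Agent.Results.MP_28f8a1_an.ZeroOneLaw
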